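import Pool.Agent.H85.PN.U
import Pool.Agent.H25.PRL.CGN

/-!
# PRN: ABFU (the family of classes, in abstract form; port of ABFK of 70)
-/

set_option autoImplicit false

namespace Pool.PRN

open Ideal Pool.PRL Pool.PRK

open scoped nonZeroDivisors

/-- **ABFU**. -/
theorem abfu : ABFUStmt := by
  classical
  intro hGCT hNCL R K L O _ _ _ _ _ _ _ _ _ _ _ _ _ _ _ _ _ _ _ _ _ g hfin ι _ p P hp hinj
    hPp hP0 hn hPle
  obtain ⟨N, e, hN, he⟩ := hNCL R O
  have hOL := IsFractionRing.injective O L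
  have hRK := IsFractionRing.injective R K
  have hfr : Module.finrank R O = 2 * g + 1 := by
    rw [← hfin]
    exact (IsFractionRing.finrank_eq R K O L).symm
  -- the classes
  set pp : ι → (Ideal O)⁰ := fun i => ⟨p i, mem_nonZeroDivisors_of_ne_zero (hp i).ne_zero⟩
    with hpp
  set PP : ι → (Ideal R)⁰ := fun i => ⟨P i, mem_nonZeroDivisors_of_ne_zero (hP0 i)⟩ with hPP
  set gg : ι → ClassGroup O := fun i => ClassGroup.mk0 (pp i) with hgg
  set hh : ι → ClassGroup R := fun i => ClassGroup.mk0 (PP i) ^ g with hhh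
  have hgh : ∀ i, N (gg i) = hh i ^ 2 := by
    intro i
    have h1 : N (ClassGroup.mk0 (pp i)) = ClassGroup.mk0 (PP i ^ (2 * g)) := by
      refine hN _ _ ?_
      rw [SubmonoidClass.coe_pow]
      exact (hn i).symm
    simp only [hgg, hhh]
    rw [h1, map_pow, ← pow_mul, mul_comm 2 g]
  have hcard := hGCT (ClassGroup O) (ClassGroup R) N e g (fun d => by rw [he, hfr]) ι gg hh hgh
  choose A hA using fun c : ClassGroup O => ClassGroup.mk0_surjective c
  let X := {q : Finset ι × ClassGroup O // q.2 ^ 2 * ∏ i ∈ q.1, gg i = 1 ∧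
    N q.2 * ∏ i ∈ q.1, hh i = 1}
  -- generators
  have hpr : ∀ x : X, ∃ u : O, u ≠ 0 ∧
      span {u} = (A x.1.2 : Ideal O) ^ 2 * ∏ i ∈ x.1.1, p i := by
    intro x
    let P' : (Ideal O)⁰ := A x.1.2 ^ 2 * ∏ i ∈ x.1.1, pp i
    have h1 : ClassGroup.mk0 P' = 1 := by
      rw [map_mul, map_pow, map_prod, hA]
      exact x.2.1
    have h2 : (P' : Ideal O) = (A x.1.2 : Ideal O) ^ 2 * ∏ i ∈ x.1.1, p i := by
      simp [P', pp]
    have h3 : ClassGroup.mk0 (⟨(P' : Ideal O), P'.2⟩ : (Ideal O)⁰) = 1 := h1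
    rw [ClassGroup.mk0_eq_one_iff] at h3
    obtain ⟨u, hu⟩ := h3
    have hu' : (P' : Ideal O) = span {u} := hu
    refine ⟨u, ?_, by rw [← hu', h2]⟩
    rintro rfl
    have : (P' : Ideal O) = 0 := by rw [hu', Ideal.zero_eq_bot, Ideal.span_singleton_eq_bot]
    exact nonZeroDivisors.coe_ne_zero P' this
  choose u hu0 hu using hpr
  have hAn : ∀ x : X, Ideal.relNorm R (A x.1.2 : Ideal O) ≠ 0 := by
    intro x
    rw [Ideal.zero_eq_bot, Ne, Ideal.relNorm_eq_bot_iff]
    exact nonZeroDivisors.coe_ne_zero (A x.1.2)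
  have hbr : ∀ x : X, ∃ b : R, b ≠ 0 ∧
      span {b} = Ideal.relNorm R (A x.1.2 : Ideal O) * ∏ i ∈ x.1.1, P i ^ g := by
    intro x
    let J : (Ideal R)⁰ := ⟨Ideal.relNorm R (A x.1.2 : Ideal O),
      mem_nonZeroDivisors_of_ne_zero (hAn x)⟩
    let P' : (Ideal R)⁰ := J * ∏ i ∈ x.1.1, PP i ^ g
    have h0 : N (ClassGroup.mk0 (A x.1.2)) = ClassGroup.mk0 J := hN _ _ rfl
    have h1 : ClassGroup.mk0 P' = 1 := by
      rw [map_mul, ← h0, hA, map_prod]
      simp only [map_pow]
      exact x.2.2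
    have h2 : (P' : Ideal R) = Ideal.relNorm R (A x.1.2 : Ideal O) * ∏ i ∈ x.1.1, P i ^ g := by
      simp [P', J, PP]
    have h3 : ClassGroup.mk0 (⟨(P' : Ideal R), P'.2⟩ : (Ideal R)⁰) = 1 := h1
    rw [ClassGroup.mk0_eq_one_iff] at h3
    obtain ⟨b, hb⟩ := h3
    have hb' : (P' : Ideal R) = span {b} := hb
    refine ⟨b, ?_, by rw [← hb', h2]⟩
    rintro rfl
    have : (P' : Ideal R) = 0 := by rw [hb', Ideal.zero_eq_bot, Ideal.span_singleton_eq_bot]
    exact nonZeroDivisors.coe_ne_zero P' this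
  choose b hb0 hb using hbr
  have hunit : ∀ x : X, ∃ v : Rˣ, Algebra.intNorm R O (u x) = v * b x ^ 2 := by
    intro x
    have h1 := congrArg (Ideal.relNorm R) (hu x)
    rw [map_mul, map_pow, map_prod, Ideal.relNorm_singleton,
      Finset.prod_congr rfl (fun i _ => hn i)] at h1
    have h2 : Ideal.relNorm R (A x.1.2 : Ideal O) ^ 2 * ∏ i ∈ x.1.1, P i ^ (2 * g) =
        span {b x ^ 2} := by
      rw [← Ideal.span_singleton_pow, hb, mul_pow, ← Finset.prod_pow]
      congr 1
      refine Finset.prod_congr rfl fun i _ => ?_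
      rw [← pow_mul, mul_comm 2 g]
    rw [h2, Ideal.span_singleton_eq_span_singleton] at h1
    obtain ⟨v, hv⟩ := h1.symm
    exact ⟨v, by rw [← hv]; ring⟩
  choose v hvg using hunit
  have hnorm : ∀ x, Algebra.norm K (algebraMap O L (u x)) =
      algebraMap R K (v x * b x ^ 2) := by
    intro x
    rw [← hvg, Algebra.algebraMap_intNorm (L := L)]
  refine ⟨X, inferInstance, fun x => algebraMap R L (v x) * algebraMap O L (u x), hcard,
    ?_, ?_, ?_, ?_⟩
  · intro x
    refine mul_ne_zero ?_ ?_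
    · rw [IsScalarTower.algebraMap_apply R K L]
      intro h
      rw [map_eq_zero_iff _ (algebraMap K L).injective, map_eq_zero_iff _ hRK] at h
      exact (v x).ne_zero h
    · rw [Ne, map_eq_zero_iff _ hOL]
      exact hu0 x
  · intro x
    simp only
    rw [map_mul, hnorm, IsScalarTower.algebraMap_apply R K L, Algebra.norm_algebraMap, hfin]
    refine ⟨algebraMap R K ((v x : R) ^ (g + 1) * b x), ?_⟩
    rw [← map_pow, ← map_mul, ← map_mul]
    congr 1
    ring
  · rintro x x' ⟨ε, z, hz⟩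
    simp only at hz
    obtain ⟨n, d, hd, rfl⟩ := IsFractionRing.div_surjective (A := O) z
    have hd0 : d ≠ 0 := nonZeroDivisors.ne_zero hd
    have hdL : algebraMap O L d ≠ 0 := by
      rw [Ne, map_eq_zero_iff _ hOL]
      exact hd0
    rw [IsScalarTower.algebraMap_apply R O L, IsScalarTower.algebraMap_apply R O L] at hz
    have h1 : algebraMap O L (algebraMap R O (v x) * u x * d ^ 2) =
        algebraMap O L ((ε : O) * (algebraMap R O (v x') * u x' * n ^ 2)) := by
      simp only [map_mul, map_pow]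
      rw [hz, div_pow]
      field_simp
    have h2 := hOL h1
    have hn0 : n ≠ 0 := by
      rintro rfl
      rw [zero_pow two_ne_zero, mul_zero, mul_zero, mul_eq_zero, mul_eq_zero] at h2
      rcases h2 with (h2 | h2) | h2
      · have : IsUnit (algebraMap R O (v x : R)) := (v x).isUnit.map _
        rw [h2] at this
        exact not_isUnit_zero this
      · exact hu0 x h2
      · exact hd0 (pow_eq_zero_iff two_ne_zero |>.mp h2)
    have hux : ∀ y : X, IsUnit (algebraMap R O (v y : R)) := fun y => (v y).isUnit.map _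
    have h : span {u x * d ^ 2} = span {u x' * n ^ 2} :=
      calc span {u x * d ^ 2} = span {algebraMap R O (v x) * u x * d ^ 2} := by
            rw [mul_assoc]
            exact (Ideal.span_singleton_mul_left_unit (hux x) _).symm
        _ = span {(ε : O) * (algebraMap R O (v x') * u x' * n ^ 2)} := by rw [h2]
        _ = span {algebraMap R O (v x') * u x' * n ^ 2} :=
            Ideal.span_singleton_mul_left_unit ε.isUnit _
        _ = span {u x' * n ^ 2} := by
            rw [mul_assoc]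
            exact Ideal.span_singleton_mul_left_unit (hux x') _
    have hy' : span {d} ≠ (0 : Ideal O) := by
      rw [Ideal.zero_eq_bot, Ne, Ideal.span_singleton_eq_bot]; exact hd0
    have hz' : span {n} ≠ (0 : Ideal O) := by
      rw [Ideal.zero_eq_bot, Ne, Ideal.span_singleton_eq_bot]; exact hn0
    have hAx : (A x.1.2 : Ideal O) ≠ 0 := nonZeroDivisors.coe_ne_zero _
    have hAx' : (A x'.1.2 : Ideal O) ≠ 0 := nonZeroDivisors.coe_ne_zero _
    rw [← Ideal.span_singleton_mul_span_singleton, ← Ideal.span_singleton_mul_span_singleton,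
      ← Ideal.span_singleton_pow, ← Ideal.span_singleton_pow, hu, hu] at h
    have h' : ((A x.1.2 : Ideal O) * span {d}) ^ 2 * ∏ i ∈ x.1.1, p i =
        ((A x'.1.2 : Ideal O) * span {n}) ^ 2 * ∏ i ∈ x'.1.1, p i := by
      rw [mul_pow, mul_pow]
      calc _ = (A x.1.2 : Ideal O) ^ 2 * (∏ i ∈ x.1.1, p i) * span {d} ^ 2 := by ring
        _ = (A x'.1.2 : Ideal O) ^ 2 * (∏ i ∈ x'.1.1, p i) * span {n} ^ 2 := h
        _ = _ := by ring
    obtain ⟨h1, h2⟩ := sq_prod_inj p hp hinj _ _ _ _ (mul_ne_zero hAx hy')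
      (mul_ne_zero hAx' hz') h'
    have h3 : ClassGroup.mk0 (A x.1.2) = ClassGroup.mk0 (A x'.1.2) := by
      rw [ClassGroup.mk0_eq_mk0_iff]
      exact ⟨d, n, hd0, hn0, by rw [mul_comm, h2, mul_comm]⟩
    rw [hA, hA] at h3
    exact Subtype.ext (Prod.ext h1 h3)
  · intro x Q hQ hQ0 hQP
    have hQM : Q.IsMaximal := hQ.isMaximal hQ0
    have hQO : Q.map (algebraMap R O) ≠ 0 := by
      rw [Ideal.zero_eq_bot, Ne, Ideal.map_eq_bot_iff_of_injective]
      · exact hQ0
      · exact FaithfulSMul.algebraMap_injective R O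
    have hB : (∏ i ∈ x.1.1, p i) ⊔ Q.map (algebraMap R O) = ⊤ := by
      rw [← Ideal.isCoprime_iff_sup_eq]
      refine IsCoprime.prod_left fun i _ => ?_
      have hPM : (P i).IsMaximal := (hPp i).isMaximal (hP0 i)
      have h1 : P i ⊔ Q = ⊤ := by
        have hne : P i ≠ Q := fun h => hQP i h.symm
        exact Ideal.IsMaximal.coprime_of_ne hPM hQM hne
      rw [Ideal.isCoprime_iff_sup_eq, eq_top_iff, ← Ideal.map_top (algebraMap R O), ← h1,
        Ideal.map_sup]
      exact sup_le_sup_right (hPle i) _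
    obtain ⟨a, y, w, ha, hy, hw, hwQ⟩ := coprime_rep (hu0 x) (hu x)
      (Q := Q.map (algebraMap R O)) hQO hB
    obtain ⟨w1, hw1, r1, hr1, hwr⟩ := Submodule.mem_sup.mp ((Ideal.eq_top_iff_one _).mp hwQ)
    obtain ⟨w2, rfl⟩ := Ideal.mem_span_singleton'.mp hw1
    have haL : algebraMap O L a ≠ 0 := by
      rw [Ne, map_eq_zero_iff _ hOL]
      exact ha
    have hyL : algebraMap O L y ≠ 0 := by
      rw [Ne, map_eq_zero_iff _ hOL]
      exact hy
    refine ⟨algebraMap O L y / algebraMap O L a, algebraMap R O (v x) * w,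
      algebraMap R O ((v x)⁻¹ : Rˣ) * w2, -r1, div_ne_zero hyL haL, ?_, neg_mem hr1, ?_⟩
    · simp only
      have h1 := congrArg (algebraMap O L) hw
      simp only [map_mul, map_pow] at h1 ⊢
      rw [IsScalarTower.algebraMap_apply R O L, div_pow]
      field_simp
      linear_combination h1
    · have h1 : algebraMap R O (v x : R) * algebraMap R O ((v x)⁻¹ : Rˣ) = 1 := by
        rw [← map_mul, Units.mul_inv, map_one]
      linear_combination (w * w2) * h1 + hwr

end Pool.PRN
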