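import Pool.Agent.H85.PN.U
import Pool.Agent.H5.PRK.CGKK

/-!
# PRN: CGU (the number of the classes over a number field; port of CGKK of 5)
-/

set_option autoImplicit false

namespace Pool.PRN

open Polynomial Matrix NumberField IsDedekindDomain Pool.HYP Pool.TOW Pool.AVS Pool.T1 Pool.NF
  Pool.PRK Pool.PRK.CK

theorem cgu : CGUStmt := by
  classical
  intro hG hN hA hDA hDB hDK hQ hIRR hUNS K _ _ D Yb hD f hfam hsm hfin
  have hirr := hIRR K D Yb hD f hfam
  have hfm : f.Monic := hfam.1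
  have hfd : f.natDegree = 2 * 1 + 1 := hfam.2.1
  have hF : Fact (Irreducible (fk K f)) := ⟨hirr⟩
  have hKm : (fk K f).Monic := hfm.map _
  have hKd : (fk K f).natDegree = 2 * 1 + 1 := by rw [hfm.natDegree_map, hfd]
  let L := AdjoinRoot (fk K f)
  let pb := AdjoinRoot.powerBasis' hKm
  have hfinK : FiniteDimensional K L := Module.Finite.of_basis pb.basis
  have hrk : Module.finrank K L = 2 * 1 + 1 := by
    rw [Module.finrank_eq_card_basis pb.basis, Fintype.card_fin, ← hKd]
    rfl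
  have hch : CharZero L := charZero_of_injective_algebraMap (algebraMap K L).injective
  have hNF : NumberField L :=
    { to_charZero := inferInstance
      to_finiteDimensional := FiniteDimensional.trans ℚ K L }
  let R := 𝓞 K
  let O := 𝓞 L
  have hOLinj : Function.Injective (algebraMap O L) := IsFractionRing.injective O L
  have hrkO : Module.finrank R O = 2 * 1 + 1 := by
    rw [← hrk, IsFractionRing.finrank_eq R K O L]
  -- the homomorphism from the polynomials
  have hint : IsIntegral R (AdjoinRoot.root (fk K f)) := by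
    refine ⟨f, hfm, ?_⟩
    have h1 := AdjoinRoot.eval₂_root (fk K f)
    rw [Polynomial.eval₂_map] at h1
    exact h1
  have hintZ : IsIntegral ℤ (AdjoinRoot.root (fk K f) : L) := isIntegral_trans _ hint
  let θ : O := ⟨(AdjoinRoot.root (fk K f) : L), hintZ⟩
  have hθ : algebraMap O L θ = AdjoinRoot.root (fk K f) := rfl
  let φ : R[X] →ₐ[R] O := aeval θ
  have hφ : ∀ p : R[X], algebraMap O L (φ p) = AdjoinRoot.mk (fk K f) (fk K p) := by
    intro p
    have h1 : algebraMap O L (φ p) = aeval (AdjoinRoot.root (fk K f)) p := by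
      rw [← hθ]
      exact (Polynomial.aeval_algebraMap_apply L θ p).symm
    rw [h1, ← AdjoinRoot.aeval_eq, aeval_map_algebraMap]
  have hφs : Function.Surjective φ := by
    intro x
    have hx : IsIntegral R (algebraMap O L x) := (RingOfIntegers.isIntegral_coe x).tower_top
    obtain ⟨p, hp⟩ := hDK hDA hDB R K f hfm hirr hsm (algebraMap O L x) hx
    refine ⟨p, hOLinj ?_⟩
    rw [hφ, hp]
  have hφk : ∀ p, φ p = 0 ↔ f ∣ p := by
    intro p
    rw [← hOLinj.eq_iff, hφ, map_zero, AdjoinRoot.mk_eq_zero]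
    exact Polynomial.map_dvd_map _ (IsFractionRing.injective R K) hfm
  have hnorm : ∀ x : R, Algebra.intNorm R O (φ (C x - X)) = f.eval x := by
    intro x
    apply IsFractionRing.injective R K
    rw [Algebra.algebraMap_intNorm (L := L)]
    have h9 : algebraMap O L (φ (C x - X)) =
        AdjoinRoot.mk (fk K f) (C (algebraMap R K x) - X) := by
      rw [hφ]
      simp only [fk, Polynomial.map_sub, map_C, map_X]
    rw [h9, Pool.Agent.H16.AVS.norm_sub _ hKm]
    simp only [fk, eval_map]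
    exact eval₂_at_apply (algebraMap (𝓞 K) K) x
  -- the primes
  have hT : ∀ P : {P : HeightOneSpectrum R // P ∈ D.T}, ∃ q : Ideal O, Prime q ∧
      P.1.asIdeal.map (algebraMap R O) ≤ q ∧ Ideal.relNorm R q = P.1.asIdeal ^ (2 * 1) := by
    intro P
    exact hQ R O 1 P.1 (D.c P.1) (D.γ P.1) f φ le_rfl hrkO hφs hφk hnorm (hD.2.1 P.1 P.2)
      (hfam.2.2.2.1 P.1 P.2)
  choose q hqp hqP hqn using hT
  have hcopP : ∀ P P' : HeightOneSpectrum R, P.asIdeal ≠ P'.asIdeal →
      P.asIdeal ⊔ P'.asIdeal = ⊤ := by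
    intro P P' hne
    exact Ideal.isMaximal_def.mp P.isMaximal |>.2 _ (lt_of_le_of_ne le_sup_left (by
      intro h
      have h1 : P'.asIdeal ≤ P.asIdeal := by rw [h]; exact le_sup_right
      exact hne (P'.isMaximal.eq_of_le P.isMaximal.ne_top h1).symm))
  have hqinj : Function.Injective q := by
    intro P P' hPP
    by_contra hcon
    have hne : P.1.asIdeal ≠ P'.1.asIdeal := by
      intro h1
      exact hcon (Subtype.ext (HeightOneSpectrum.ext h1))
    have h1 := hcopP P.1 P'.1 hne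
    have h2 : (⊤ : Ideal O) ≤ q P := by
      have h3 := congrArg (Ideal.map (algebraMap R O)) h1
      rw [Ideal.map_sup, Ideal.map_top] at h3
      rw [← h3]
      refine sup_le (hqP P) ?_
      rw [hPP]
      exact hqP P'
    exact (hqp P).not_isUnit (Ideal.isUnit_iff.mpr (top_le_iff.mp h2))
  obtain ⟨X, hX, u₀, hcard, hu0', husq', huinj', hloc'⟩ := hA hG hN R K L O 1 hrk
    {P : HeightOneSpectrum R // P ∈ D.T} q (fun P => P.1.asIdeal) hqp hqinj
    (fun P => P.1.isPrime) (fun P => P.1.ne_bot) hqn hqP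
  obtain ⟨Y, hY, e, hcardY, hesq, heinj⟩ := hUNS K L 1 hrk
  have he0 : ∀ y, (algebraMap O L (e y : O)) ≠ 0 := by
    intro y h
    rw [map_eq_zero_iff _ hOLinj] at h
    exact (e y).ne_zero h
  let u : X × Y → L := fun z => u₀ z.1 * algebraMap O L (e z.2 : O)
  have hu0 : ∀ z, u z ≠ 0 := fun z => mul_ne_zero (hu0' z.1) (he0 z.2)
  have husq : ∀ z, IsSquare (Algebra.norm K (u z)) := by
    intro z
    change IsSquare (Algebra.norm K (u₀ z.1 * algebraMap O L (e z.2 : O)))
    rw [map_mul]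
    exact (husq' z.1).mul (hesq z.2)
  have huinj : ∀ z z', (∃ v : L, u z = u z' * v ^ 2) → z = z' := by
    rintro ⟨x, y⟩ ⟨x', y'⟩ ⟨v, hv⟩
    have hv' : u₀ x * algebraMap O L (e y : O) =
      u₀ x' * algebraMap O L (e y' : O) * v ^ 2 := hv
    have hinv : algebraMap O L (e y : O) * algebraMap O L (((e y)⁻¹ : Oˣ) : O) = 1 := by
      rw [← map_mul, Units.mul_inv, map_one]
    have hx : x = x' := by
      refine huinj' x x' ⟨e y' * (e y)⁻¹, v, ?_⟩
      rw [Units.val_mul, map_mul]
      calc u₀ x = u₀ x * (algebraMap O L (e y : O) * algebraMap O L (((e y)⁻¹ : Oˣ) : O)) := by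
            rw [hinv, mul_one]
        _ = (u₀ x * algebraMap O L (e y : O)) * algebraMap O L (((e y)⁻¹ : Oˣ) : O) := by ring
        _ = _ := by rw [hv']; ring
    subst hx
    have hy : y = y' := by
      refine heinj y y' ⟨v, ?_⟩
      have h1 : u₀ x * algebraMap O L (e y : O) = u₀ x * (algebraMap O L (e y' : O) * v ^ 2) := by
        rw [hv']
        ring
      exact mul_left_cancel₀ (hu0' x) h1
    rw [hy]
  have hloc : ∀ z : X × Y, ∀ Q : Ideal R, Q.IsPrime → Q ≠ ⊥ →
      (∀ i : {P : HeightOneSpectrum R // P ∈ D.T}, Q ≠ i.1.asIdeal) →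
      ∃ (s : L) (w w' r : O), s ≠ 0 ∧ u z * s ^ 2 = algebraMap O L w ∧
        r ∈ Q.map (algebraMap R O) ∧ w * w' = 1 + r := by
    rintro ⟨x, y⟩ Q hQp hQ0 hQT
    obtain ⟨s, w, w', r, hs0, hs, hr, hw⟩ := hloc' x Q hQp hQ0 hQT
    refine ⟨s, w * e y, w' * ((e y)⁻¹ : Oˣ), r, hs0, ?_, hr, ?_⟩
    · change u₀ x * algebraMap O L (e y : O) * s ^ 2 = _
      rw [map_mul, ← hs]
      ring
    · have h1 : (e y : O) * (((e y)⁻¹ : Oˣ) : O) = 1 := Units.mul_inv _
      calc w * (e y : O) * (w' * (((e y)⁻¹ : Oˣ) : O))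
          = (w * w') * ((e y : O) * (((e y)⁻¹ : Oˣ) : O)) := by ring
        _ = 1 + r := by rw [h1, mul_one, hw]
  have huu : ∀ x, IsUnit (u x) := fun x => isUnit_iff_ne_zero.mpr (hu0 x)
  let U : X × Y → Lˣ := fun x => (huu x).unit
  let ξ : X × Y → Lˣ ⧸ SqG (fk K f) := fun x => QuotientGroup.mk (U x)
  have hinj : Function.Injective ξ := by
    intro x x' h
    have h5 : (U x)⁻¹ * U x' ∈ SqG (fk K f) := QuotientGroup.eq.mp h
    obtain ⟨v, hv⟩ := h5
    refine huinj x x' ⟨((v⁻¹ : Lˣ) : L), ?_⟩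
    have h6 : U x = U x' * v⁻¹ ^ 2 := by
      have h7 : v ^ 2 = (U x)⁻¹ * U x' := hv
      rw [inv_pow, h7, _root_.mul_inv_rev, inv_inv, mul_inv_cancel_left]
    have h8 := congrArg (fun z : Lˣ => (z : L)) h6
    simp only [Units.val_mul, Units.val_pow_eq_pow_val] at h8
    exact h8
  have hcop0 : ∀ (z : L), z ≠ 0 → ∀ p : K[X], AdjoinRoot.mk (fk K f) p = z →
      IsCoprime p (fk K f) := by
    intro z hz p hp
    rw [isCoprime_comm, hirr.coprime_iff_not_dvd]
    intro hd
    exact hz (hp ▸ AdjoinRoot.mk_eq_zero.mpr hd)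
  have hmem : ∀ x, ξ x ∈ RcG K D.T f := by
    intro x
    obtain ⟨α, hα⟩ := AdjoinRoot.mk_surjective (u x)
    refine ⟨U x, α, rfl, hα, hcop0 _ (hu0 x) α hα, ?_, ?_⟩
    · change IsSquare (Algebra.norm K (AdjoinRoot.mk (fk K f) α))
      rw [hα]
      exact husq x
    · intro P hPT
      obtain ⟨s, w, w', r, hs0, hs, hr, hw⟩ := hloc x P.asIdeal P.isPrime P.ne_bot
        (fun i h => hPT (by rw [HeightOneSpectrum.ext h]; exact i.2))
      obtain ⟨s', hs'⟩ := AdjoinRoot.mk_surjective s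
      obtain ⟨p, rfl⟩ := hφs w
      obtain ⟨p', rfl⟩ := hφs w'
      obtain ⟨r', hr', rfl⟩ := zer_of_mem P.asIdeal φ hφs r hr
      refine ⟨s', p, hcop0 _ hs0 s' hs', ?_, ?_⟩
      · rw [← AdjoinRoot.mk_eq_zero, map_sub, map_mul, map_pow, sub_eq_zero, hα, hs', ← hφ]
        exact hs
      · have h9 : φ (p * p' - 1 - r') = 0 := by
          rw [map_sub, map_sub, map_mul, map_one, sub_sub, sub_eq_zero]
          exact hw
        obtain ⟨t, ht⟩ := (hφk _).mp h9
        have h10 : md P.asIdeal r' = 0 := by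
          ext i
          rw [coeff_map, coeff_zero]
          exact Ideal.Quotient.eq_zero_iff_mem.mpr (hr' i)
        have h11 := congrArg (md P.asIdeal) ht
        simp only [md, Polynomial.map_sub, Polynomial.map_mul, Polynomial.map_one] at h11 h10 ⊢
        rw [h10, sub_zero] at h11
        refine ⟨p'.map (Ideal.Quotient.mk P.asIdeal), -(t.map (Ideal.Quotient.mk P.asIdeal)), ?_⟩
        linear_combination h11
  calc 2 ^ (D.T.card + dg K) = 2 ^ Fintype.card {P : HeightOneSpectrum R // P ∈ D.T} *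
        2 ^ (1 * dg K) := by
        rw [Fintype.card_coe, pow_add, one_mul]
    _ ≤ Nat.card X * Nat.card Y := Nat.mul_le_mul hcard hcardY
    _ = Nat.card (X × Y) := (Nat.card_prod X Y).symm
    _ = (Set.range ξ).ncard := by
      rw [← Set.image_univ, Set.ncard_image_of_injective _ hinj, Set.ncard_univ]
    _ ≤ (RcG K D.T f).ncard := Set.ncard_le_ncard (Set.range_subset_iff.mpr hmem) hfin

end Pool.PRN
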