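import Pool.Agent.H85.PN.U

/-!
# PRN: UNS (the units of square norm modulo squares)
-/

set_option autoImplicit false

namespace Pool.PRN

open Polynomial NumberField IsDedekindDomain Pool.NF

namespace Uns

/-- The group of the squares of units. -/
abbrev sqr (K : Type) [Field K] : Subgroup (𝓞 K)ˣ :=
  (powMonoidHom 2 : (𝓞 K)ˣ →* (𝓞 K)ˣ).range

theorem rank_eq (K : Type) [Field K] [NumberField K] :
    2 * (Units.rank K + 1) = InfinitePlace.nrRealPlaces K + Module.finrank ℚ K := by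
  have h1 : Units.rank K = Fintype.card (InfinitePlace K) - 1 := rfl
  have h2 : 0 < Fintype.card (InfinitePlace K) := Fintype.card_pos
  have h3 := InfinitePlace.card_eq_nrRealPlaces_add_nrComplexPlaces K
  have h4 := InfinitePlace.card_add_two_mul_card_eq_rank K
  omega

end Uns

open Uns in
theorem uns (hU : UNKStmt) (hR : RPLStmt) : UNSStmt := by
  classical
  intro K L _ _ _ _ _ g hg
  obtain ⟨hfK, hcK⟩ := hU K
  obtain ⟨hfL, hcL⟩ := hU L
  have hreal := hR K L ⟨g, hg⟩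
  let nm : (𝓞 L)ˣ →* (𝓞 K)ˣ := Units.map (RingOfIntegers.norm K)
  have hnm : ∀ x : (𝓞 L)ˣ, ((nm x : 𝓞 K) : K) = Algebra.norm K ((x : 𝓞 L) : L) := fun x => rfl
  have hle : sqr L ≤ (sqr K).comap nm := by
    rintro _ ⟨x, rfl⟩
    exact ⟨nm x, (map_pow nm x 2).symm⟩
  let N : ((𝓞 L)ˣ ⧸ sqr L) →* ((𝓞 K)ˣ ⧸ sqr K) := QuotientGroup.map _ _ nm hle
  have hN : ∀ x : (𝓞 L)ˣ, N (QuotientGroup.mk x) = QuotientGroup.mk (nm x) := fun x => rfl
  have hfin : Finite N.ker := inferInstance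
  refine ⟨N.ker, hfin, fun y => Quotient.out y.1, ?_, ?_, ?_⟩
  · -- counting
    have h1 := Subgroup.card_eq_card_quotient_mul_card_subgroup N.ker
    have h2 : Nat.card (((𝓞 L)ˣ ⧸ sqr L) ⧸ N.ker) ≤ Nat.card ((𝓞 K)ˣ ⧸ sqr K) := by
      have h3 : Nat.card (((𝓞 L)ˣ ⧸ sqr L) ⧸ N.ker) = Nat.card N.range :=
        Nat.card_congr (QuotientGroup.quotientKerEquivRange N).toEquiv
      rw [h3]
      exact Nat.card_le_card_of_injective (fun z : N.range => z.1) Subtype.val_injective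
    rw [hcL] at h1
    rw [hcK] at h2
    have h4 : 2 ^ (Units.rank L + 1) ≤ 2 ^ (Units.rank K + 1) * Nat.card N.ker := by
      rw [h1]
      exact Nat.mul_le_mul_right _ h2
    have h5 : Module.finrank ℚ L = Module.finrank ℚ K * (2 * g + 1) := by
      rw [← hg, Module.finrank_mul_finrank ℚ K L]
    have h6 := rank_eq K
    have h7 := rank_eq L
    have h8 : Units.rank K + 1 + g * dg K ≤ Units.rank L + 1 := by
      have h9 : 2 * (Units.rank K + 1 + g * dg K) ≤ 2 * (Units.rank L + 1) := by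
        have h10 : 2 * (Units.rank K + 1 + g * dg K) =
            2 * (Units.rank K + 1) + 2 * (g * dg K) := by ring
        rw [h10, h7, h6, h5]
        have h11 : Module.finrank ℚ K * (2 * g + 1) =
            Module.finrank ℚ K + 2 * (g * Module.finrank ℚ K) := by ring
        rw [h11]
        change _ + 2 * (g * Module.finrank ℚ K) ≤ _
        omega
      omega
    have h12 : 2 ^ (Units.rank K + 1) * 2 ^ (g * dg K) ≤
        2 ^ (Units.rank K + 1) * Nat.card N.ker := by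
      rw [← pow_add]
      exact (Nat.pow_le_pow_right (by norm_num) h8).trans h4
    exact Nat.le_of_mul_le_mul_left h12 (by positivity)
  · intro y
    have h1 : N (QuotientGroup.mk (Quotient.out y.1)) = 1 := by
      have h2 : (QuotientGroup.mk (Quotient.out y.1) : (𝓞 L)ˣ ⧸ sqr L) = y.1 :=
        QuotientGroup.out_eq' y.1
      rw [h2]
      exact y.2
    rw [hN] at h1
    have h3 : nm (Quotient.out y.1) ∈ sqr K := (QuotientGroup.eq_one_iff _).1 h1
    obtain ⟨h, hh⟩ := h3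
    refine ⟨((h : 𝓞 K) : K), ?_⟩
    have h4 : (powMonoidHom 2 : (𝓞 K)ˣ →* (𝓞 K)ˣ) h = h * h := by
      change h ^ 2 = h * h
      exact pow_two h
    rw [h4] at hh
    rw [← hnm, ← hh]
    push_cast
    rfl
  · rintro y y' ⟨v, hv⟩
    have hinj : Function.Injective (algebraMap (𝓞 L) L) := IsFractionRing.injective (𝓞 L) L
    set a : (𝓞 L)ˣ := Quotient.out y.1 with ha
    set b : (𝓞 L)ˣ := Quotient.out y'.1 with hb
    have hv2 : v ^ 2 = (((a * b⁻¹ : (𝓞 L)ˣ) : 𝓞 L) : L) := by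
      have h1 : ((b : 𝓞 L) : L) * (((b⁻¹ : (𝓞 L)ˣ) : 𝓞 L) : L) = 1 := by
        have := congrArg (algebraMap (𝓞 L) L) (Units.mul_inv b)
        rwa [map_mul, map_one] at this
      have h2 : (((a * b⁻¹ : (𝓞 L)ˣ) : 𝓞 L) : L) =
          ((a : 𝓞 L) : L) * (((b⁻¹ : (𝓞 L)ˣ) : 𝓞 L) : L) := by
        rw [Units.val_mul]
        exact map_mul (algebraMap (𝓞 L) L) _ _
      rw [h2, hv]
      calc v ^ 2 = (((b : 𝓞 L) : L) * (((b⁻¹ : (𝓞 L)ˣ) : 𝓞 L) : L)) * v ^ 2 := by
            rw [h1, one_mul]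
        _ = _ := by ring
    have hint : IsIntegral ℤ v := by
      refine IsIntegral.of_pow (n := 2) (by norm_num) ?_
      rw [hv2]
      exact RingOfIntegers.isIntegral_coe _
    have hv0 : v ≠ 0 := by
      rintro rfl
      rw [zero_pow two_ne_zero] at hv2
      exact Units.coe_ne_zero (a * b⁻¹) hv2.symm
    have hv2' : (v⁻¹) ^ 2 = (((b * a⁻¹ : (𝓞 L)ˣ) : 𝓞 L) : L) := by
      have h1 : (((a * b⁻¹ : (𝓞 L)ˣ) : 𝓞 L) : L) * (((b * a⁻¹ : (𝓞 L)ˣ) : 𝓞 L) : L) = 1 := by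
        have h2 : (a * b⁻¹) * (b * a⁻¹) = 1 := by group
        rw [← map_mul (algebraMap (𝓞 L) L), ← Units.val_mul, h2, Units.val_one, map_one]
      rw [inv_pow, hv2]
      exact (eq_inv_of_mul_eq_one_right h1).symm
    have hint' : IsIntegral ℤ v⁻¹ := by
      refine IsIntegral.of_pow (n := 2) (by norm_num) ?_
      rw [hv2']
      exact RingOfIntegers.isIntegral_coe _
    obtain ⟨v₁, hv₁⟩ := (IsIntegralClosure.isIntegral_iff (A := 𝓞 L)).1 hint
    obtain ⟨v₂, hv₂⟩ := (IsIntegralClosure.isIntegral_iff (A := 𝓞 L)).1 hint'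
    let w : (𝓞 L)ˣ := ⟨v₁, v₂, hinj (by
      rw [map_mul, map_one, hv₁, hv₂]
      exact mul_inv_cancel₀ hv0), hinj (by
      rw [map_mul, map_one, hv₁, hv₂]
      exact inv_mul_cancel₀ hv0)⟩
    have hw : w ^ 2 = a * b⁻¹ := by
      apply Units.ext
      apply hinj
      rw [Units.val_pow_eq_pow_val, map_pow]
      change (algebraMap (𝓞 L) L v₁) ^ 2 = _
      rw [hv₁]
      exact hv2
    have h5 : (QuotientGroup.mk a : (𝓞 L)ˣ ⧸ sqr L) = QuotientGroup.mk b := by
      rw [eq_comm, QuotientGroup.eq]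
      exact ⟨w, by
        change w ^ 2 = _
        rw [hw, mul_comm]⟩
    have h6 : (QuotientGroup.mk a : (𝓞 L)ˣ ⧸ sqr L) = y.1 := QuotientGroup.out_eq' y.1
    have h7 : (QuotientGroup.mk b : (𝓞 L)ˣ ⧸ sqr L) = y'.1 := QuotientGroup.out_eq' y'.1
    rw [h6, h7] at h5
    exact Subtype.ext h5

end Pool.PRN
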