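import Pool.Agent.H5.PRK.S3
import Pool.Agent.H29.NF.A

/-!
# PRN: statements of the modules, the number of the classes over a number field

`K` is a number field of degree `n`, `f` is a smooth cubic polynomial of the family,
`L = K[x]/(f)`.  There are at least `2^(#T + n)` classes of square norm which are classes of units
outside `T`: each pair of `S3.lean` (`H5/PRK`) can be multiplied by the units of `L` of square norm,
and there are at least `2^n` of them modulo squares.
-/

set_option autoImplicit false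

namespace Pool.PRN

open Polynomial NumberField IsDedekindDomain Pool.HYP Pool.TOW Pool.AVS Pool.T1 Pool.NF Pool.PRK

/-- UNK: the units modulo squares.  (`exist_unique_eq_mul_prod`; the torsion is cyclic of even
order.) -/
def UNKStmt : Prop :=
  ∀ (K : Type) [Field K] [NumberField K],
    Finite ((𝓞 K)ˣ ⧸ (powMonoidHom 2 : (𝓞 K)ˣ →* (𝓞 K)ˣ).range) ∧
    Nat.card ((𝓞 K)ˣ ⧸ (powMonoidHom 2 : (𝓞 K)ˣ →* (𝓞 K)ˣ).range) = 2 ^ (Units.rank K + 1)

/-- RPL: real places in extensions of odd degree.  (`L = K(θ)`; the minimal polynomial of `θ` has odd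
degree, so over each real embedding it has a real root.) -/
def RPLStmt : Prop :=
  ∀ (K L : Type) [Field K] [NumberField K] [Field L] [NumberField L] [Algebra K L],
    Odd (Module.finrank K L) →
    InfinitePlace.nrRealPlaces K ≤ InfinitePlace.nrRealPlaces L

/-- UNS: the units of square norm modulo squares.  (`2 (rank + 1) = r₁ + n` for `K` and for `L`, RPL,
UNK; the kernel of the norm from the units of `L` modulo squares to the units of `K` modulo
squares.) -/
def UNSStmt : Prop :=
  ∀ (K L : Type) [Field K] [NumberField K] [Field L] [NumberField L] [Algebra K L] (g : ℕ),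
    Module.finrank K L = 2 * g + 1 →
    ∃ (Y : Type) (_ : Finite Y) (e : Y → (𝓞 L)ˣ), 2 ^ (g * dg K) ≤ Nat.card Y ∧
      (∀ y, IsSquare (Algebra.norm K ((e y : 𝓞 L) : L))) ∧
      ∀ y y', (∃ v : L, ((e y : 𝓞 L) : L) = ((e y' : 𝓞 L) : L) * v ^ 2) → y = y'

/-- ABFU: as ABFK of `H5/PRK/S3`; two members of the family differ by more than a unit and a
square. -/
def ABFUStmt : Prop :=
  GCTKStmt → NCLKStmt →
  ∀ (R K L O : Type) [CommRing R] [IsDedekindDomain R] [Field K] [Algebra R K]
    [IsFractionRing R K] [Field L] [CommRing O] [IsDedekindDomain O] [Algebra K L] [Algebra R L]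
    [IsScalarTower R K L] [Algebra R O] [Algebra O L] [IsScalarTower R O L] [IsFractionRing O L]
    [IsIntegralClosure O R L] [Module.Finite R O] [Module.IsTorsionFree R O]
    [FiniteDimensional K L] [Finite (ClassGroup O)] [Finite (ClassGroup R)] (g : ℕ),
    Module.finrank K L = 2 * g + 1 → ∀ (ι : Type) [Fintype ι] (p : ι → Ideal O) (P : ι → Ideal R),
    (∀ i, Prime (p i)) → Function.Injective p → (∀ i, (P i).IsPrime) → (∀ i, P i ≠ ⊥) →
    (∀ i, Ideal.relNorm R (p i) = P i ^ (2 * g)) →
    (∀ i, (P i).map (algebraMap R O) ≤ p i) →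
    ∃ (X : Type) (_ : Finite X) (u : X → L), 2 ^ Fintype.card ι ≤ Nat.card X ∧
      (∀ x, u x ≠ 0) ∧ (∀ x, IsSquare (Algebra.norm K (u x))) ∧
      (∀ x x', (∃ (ε : Oˣ) (v : L), u x = algebraMap O L ε * u x' * v ^ 2) → x = x') ∧
      ∀ x, ∀ Q : Ideal R, Q.IsPrime → Q ≠ ⊥ → (∀ i, Q ≠ P i) →
        ∃ (s : L) (w w' r : O), s ≠ 0 ∧ u x * s ^ 2 = algebraMap O L w ∧
          r ∈ Q.map (algebraMap R O) ∧ w * w' = 1 + r

/-- CGU: the number of the classes, from its parts.  (As CGKK of `H5/PRK`, with the products of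
the family of ABFU and of the units of UNS.) -/
def CGUStmt : Prop :=
  GCTKStmt → NCLKStmt → ABFUStmt → DEDAStmt → DEDBStmt → DEDKStmt → QPRKStmt → IRRNStmt →
  UNSStmt →
  ∀ (K : Type) [Field K] [NumberField K] (D : DatN K) (Y : ℕ), D.Ok → ∀ f ∈ FamN D Y,
    Smooth f → (RcG K D.T f).Finite → 2 ^ (D.T.card + dg K) ≤ (RcG K D.T f).ncard

end Pool.PRN
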